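import Pool.Agent.Helper62.CS.Stmts

/-!
Row COD of project CS (MP_2bf3f9_lc).
-/

namespace Pool.Agent.Helper62.CS

theorem wenc_length : ∀ (q v acc : Str), v.length = 2 * q.length →
    (wenc q v acc).length = 3 * q.length + acc.length := by
  intro q
  induction q with
  | nil =>
    intro v acc hv
    rw [wenc]
    · simp
    · intro bq q b1 b2 v' h1
      simp at h1
  | cons a q ih =>
    intro v acc hv
    rcases v with _ | ⟨b1, _ | ⟨b2, v⟩⟩
    · simp at hv
    · simp at hv
      omega
    · rw [wenc, ih]
      · simp
        omega
      · simp at hv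
        omega

theorem wenc_inj : ∀ (q v q' v' acc acc' : Str), v.length = 2 * q.length →
    v'.length = 2 * q'.length → q.length = q'.length →
    wenc q v acc = wenc q' v' acc' → q = q' ∧ v = v' ∧ acc = acc' := by
  intro q
  induction q with
  | nil =>
    intro v q' v' acc acc' hv hv' hl h
    have hq' : q' = [] := by
      simp at hl
      exact List.length_eq_zero_iff.1 hl.symm
    subst hq'
    have h1 : v = [] := List.length_eq_zero_iff.1 (by simpa using hv)
    have h2 : v' = [] := List.length_eq_zero_iff.1 (by simpa using hv')
    subst h1 h2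
    simp only [wenc] at h
    exact ⟨rfl, rfl, h⟩
  | cons a q ih =>
    intro v q' v' acc acc' hv hv' hl h
    rcases q' with _ | ⟨a', q'⟩
    · simp at hl
    rcases v with _ | ⟨b1, _ | ⟨b2, v⟩⟩
    · simp at hv
    · simp at hv
      omega
    rcases v' with _ | ⟨b1', _ | ⟨b2', v'⟩⟩
    · simp at hv'
    · simp at hv'
      omega
    rw [wenc, wenc] at h
    obtain ⟨h1, h2, h3⟩ := ih v q' v' _ _ (by simp at hv; omega) (by simp at hv'; omega)
      (by simpa using hl) h
    simp only [List.cons.injEq] at h3
    obtain ⟨h4, h5, h6, h7⟩ := h3
    subst h1 h2 h4 h5 h6 h7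
    exact ⟨rfl, rfl, rfl⟩

theorem replicate_inj : ∀ (t t' : ℕ) (w w' : Str),
    List.replicate t true ++ false :: w = List.replicate t' true ++ false :: w' →
    t = t' ∧ w = w' := by
  intro t
  induction t with
  | zero =>
    intro t' w w' h
    rcases t' with _ | t'
    · simpa using h
    · simp [List.replicate_succ] at h
  | succ t ih =>
    intro t' w w' h
    rcases t' with _ | t'
    · simp [List.replicate_succ] at h
    · simp only [List.replicate_succ, List.cons_append, List.cons.injEq, true_and] at h
      obtain ⟨h1, h2⟩ := ih t' w w' h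
      exact ⟨by omega, h2⟩

theorem st_COD : ST_COD := by
  constructor
  · intro q v q' v' t t' hv hv' h
    obtain ⟨h1, h2⟩ := replicate_inj t t' _ _ h
    have hl : q.length = q'.length := by
      have h3 := congrArg List.length h2
      rw [wenc_length q v [] hv, wenc_length q' v' [] hv'] at h3
      simp at h3
      omega
    obtain ⟨h4, h5, _⟩ := wenc_inj q v q' v' [] [] hv hv' hl h2
    exact ⟨h4, h5, h1⟩
  · intro q v t hv
    unfold code
    simp only [List.length_append, List.length_replicate, List.length_cons]
    rw [wenc_length q v [] hv]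
    simp
    omega

end Pool.Agent.Helper62.CS
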