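import Pool.Agent.Helper62.CS.Stmts2

/-!
Row CRD of project CS (MP_2bf3f9_lc).
-/

namespace Pool.Agent.Helper62.CS

theorem crd_memQf {n : ℕ} {q : Str} : q ∈ Qf n ↔ q.length = n := by
  unfold Qf
  simp only [Finset.mem_image, Finset.mem_univ, true_and]
  constructor
  · rintro ⟨f, rfl⟩
    simp
  · intro h
    subst h
    exact ⟨fun i => q.get i, List.ofFn_get q⟩

theorem crd_inj (a b : Str) : ∀ j j' : ℕ,
    List.replicate j true ++ (false :: a) = List.replicate j' true ++ (false :: b) →
    j = j' ∧ a = b := by
  intro j
  induction j with
  | zero =>
      intro j' h
      cases j' with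
      | zero =>
          simp only [List.replicate_zero, List.nil_append, List.cons.injEq, true_and] at h
          exact ⟨rfl, h⟩
      | succ j' =>
          simp only [List.replicate_zero, List.nil_append, List.replicate_succ, List.cons_append,
            List.cons.injEq] at h
          exact absurd h.1 (by decide)
  | succ j ih =>
      intro j' h
      cases j' with
      | zero =>
          simp only [List.replicate_zero, List.nil_append, List.replicate_succ, List.cons_append,
            List.cons.injEq] at h
          exact absurd h.1 (by decide)
      | succ j' =>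
          simp only [List.replicate_succ, List.cons_append, List.cons.injEq, true_and] at h
          obtain ⟨h1, h2⟩ := ih j' h
          exact ⟨by omega, h2⟩

theorem st_CRD : ST_CRD := by
  classical
  intro n
  have h : (Vf T0 n).card = ((Finset.range n).sigma
      (fun j => (Qf n).filter (fun x => bold (n + j) n x = true))).card := by
    symm
    apply Finset.card_bij (fun (p : Σ _ : ℕ, Str) _ =>
      (List.replicate p.1 true ++ (List.replicate (n - p.1) false ++ p.2)).reverse)
    · rintro ⟨j, x⟩ hp
      simp only [Finset.mem_sigma, Finset.mem_range, Finset.mem_filter] at hp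
      obtain ⟨hj, hx, hb⟩ := hp
      have hx' := crd_memQf.1 hx
      unfold Vf
      rw [Finset.mem_filter]
      refine ⟨?_, ?_⟩
      · rw [crd_memQf]
        simp only [List.length_reverse, List.length_append, List.length_replicate, hx']
        omega
      · simp only [List.reverse_reverse]
        exact ⟨n, j, x, hx', hj, rfl, hb⟩
    · rintro ⟨j, x⟩ hp ⟨j', x'⟩ hp' heq
      simp only [Finset.mem_sigma, Finset.mem_range, Finset.mem_filter] at hp hp'
      have h1 := List.reverse_injective heq
      simp only at h1
      obtain ⟨m, hm⟩ : ∃ m, n - j = m + 1 := ⟨n - j - 1, by omega⟩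
      obtain ⟨m', hm'⟩ : ∃ m', n - j' = m' + 1 := ⟨n - j' - 1, by omega⟩
      rw [hm, hm', List.replicate_succ, List.replicate_succ, List.cons_append,
        List.cons_append] at h1
      obtain ⟨h2, h3⟩ := crd_inj _ _ j j' h1
      subst h2
      have h4 : m = m' := by omega
      subst h4
      have h5 := List.append_cancel_left h3
      subst h5
      rfl
    · intro v hv
      unfold Vf at hv
      rw [Finset.mem_filter] at hv
      obtain ⟨hv1, n', j, x, hx, hj, hw, hb⟩ := hv
      have hl := crd_memQf.1 hv1
      have hl2 : v.reverse.length = 2 * n' := by
        rw [hw]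
        simp only [List.length_append, List.length_replicate, hx]
        omega
      rw [List.length_reverse] at hl2
      have hn : n' = n := by omega
      subst hn
      refine ⟨⟨j, x⟩, ?_, ?_⟩
      · simp only [Finset.mem_sigma, Finset.mem_range, Finset.mem_filter]
        exact ⟨hj, crd_memQf.2 hx, hb⟩
      · simp only
        rw [← hw, List.reverse_reverse]
  rw [h, Finset.card_sigma]

end Pool.Agent.Helper62.CS
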