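import Pool.Agent.Helper62.CS.Stmts2

/-!
Row GD0 of project CS (MP_2bf3f9_lc).
-/

namespace Pool.Agent.Helper62.CS

theorem gd0_sand (n lo hi W : ℕ) (h1 : lo ≤ W) (h2 : W ≤ hi)
    (hlo : (2 : ℝ) ^ n * (1 - (1 / 2 : ℝ) ^ n) ^ lo ≤ 1)
    (hhi : 1 / 2 ≤ (2 : ℝ) ^ n * (1 - (1 / 2 : ℝ) ^ n) ^ hi) :
    1 / 2 ≤ (2 : ℝ) ^ n * (1 - (1 / 2 : ℝ) ^ n) ^ W ∧
    (2 : ℝ) ^ n * (1 - (1 / 2 : ℝ) ^ n) ^ W ≤ 1 := by
  have h0 : (0 : ℝ) ≤ 1 - (1 / 2 : ℝ) ^ n := by
    have := pow_le_one₀ (n := n) (by norm_num : (0 : ℝ) ≤ 1 / 2) (by norm_num)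
    linarith
  have h3 : 1 - (1 / 2 : ℝ) ^ n ≤ 1 := by
    have : (0 : ℝ) ≤ (1 / 2 : ℝ) ^ n := by positivity
    linarith
  have h4 := pow_le_pow_of_le_one h0 h3 h1
  have h5 := pow_le_pow_of_le_one h0 h3 h2
  have hp : (0 : ℝ) ≤ (2 : ℝ) ^ n := by positivity
  exact ⟨le_trans hhi (mul_le_mul_of_nonneg_left h5 hp),
    le_trans (mul_le_mul_of_nonneg_left h4 hp) hlo⟩

theorem gd0_small (N : ℕ → ℕ) (n : ℕ) (hn1 : 1 ≤ n) (hn : n < 7)
    (hc : ∀ j, (n + j) * N j ≤ 2 ^ n * n ∧ 2 ^ n * n ≤ (n + j) * (N j + 1)) :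
    1 / 2 ≤ (2 : ℝ) ^ n * (1 - (1 / 2 : ℝ) ^ n) ^ (∑ j ∈ Finset.range n, N j) ∧
    (2 : ℝ) ^ n * (1 - (1 / 2 : ℝ) ^ n) ^ (∑ j ∈ Finset.range n, N j) ≤ 1 := by
  have c0 := hc 0
  have c1 := hc 1
  have c2 := hc 2
  have c3 := hc 3
  have c4 := hc 4
  have c5 := hc 5
  clear hc
  interval_cases n
  · norm_num at c0 c1 c2 c3 c4 c5
    apply gd0_sand 1 1 2 _ _ _ (by norm_num) (by norm_num)
    · simp only [Finset.sum_range_succ, Finset.sum_range_zero]
      omega
    · simp only [Finset.sum_range_succ, Finset.sum_range_zero]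
      omega
  · norm_num at c0 c1 c2 c3 c4 c5
    apply gd0_sand 2 5 6 _ _ _ (by norm_num) (by norm_num)
    · simp only [Finset.sum_range_succ, Finset.sum_range_zero]
      omega
    · simp only [Finset.sum_range_succ, Finset.sum_range_zero]
      omega
  · norm_num at c0 c1 c2 c3 c4 c5
    apply gd0_sand 3 16 18 _ _ _ (by norm_num) (by norm_num)
    · simp only [Finset.sum_range_succ, Finset.sum_range_zero]
      omega
    · simp only [Finset.sum_range_succ, Finset.sum_range_zero]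
      omega
  · norm_num at c0 c1 c2 c3 c4 c5
    apply gd0_sand 4 46 47 _ _ _ (by norm_num) (by norm_num)
    · simp only [Finset.sum_range_succ, Finset.sum_range_zero]
      omega
    · simp only [Finset.sum_range_succ, Finset.sum_range_zero]
      omega
  · norm_num at c0 c1 c2 c3 c4 c5
    apply gd0_sand 5 115 117 _ _ _ (by norm_num) (by norm_num)
    · simp only [Finset.sum_range_succ, Finset.sum_range_zero]
      omega
    · simp only [Finset.sum_range_succ, Finset.sum_range_zero]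
      omega
  · norm_num at c0 c1 c2 c3 c4 c5
    apply gd0_sand 6 278 280 _ _ _
      (by rw [show (278 : ℕ) = 139 * 2 from rfl, pow_mul]; norm_num)
      (by rw [show (280 : ℕ) = 140 * 2 from rfl, pow_mul]; norm_num)
    · simp only [Finset.sum_range_succ, Finset.sum_range_zero]
      omega
    · simp only [Finset.sum_range_succ, Finset.sum_range_zero]
      omega

theorem gd0_large (N : ℕ → ℕ) (n : ℕ) (hn : 7 ≤ n)
    (hc : ∀ j, (n + j) * N j ≤ 2 ^ n * n ∧ 2 ^ n * n ≤ (n + j) * (N j + 1))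
    (H : ℝ) (hH : H = ∑ j ∈ Finset.range n, (n : ℝ) / ((n : ℝ) + (j : ℝ)))
    (hl : (n : ℝ) * Real.log 2 + 1 / 16 ≤ H) (hu : H ≤ (n : ℝ) * Real.log 2 + 1 / 2) :
    1 / 2 ≤ (2 : ℝ) ^ n * (1 - (1 / 2 : ℝ) ^ n) ^ (∑ j ∈ Finset.range n, N j) ∧
    (2 : ℝ) ^ n * (1 - (1 / 2 : ℝ) ^ n) ^ (∑ j ∈ Finset.range n, N j) ≤ 1 := by
  have h2n : ∀ n : ℕ, 7 ≤ n → 16 * n ≤ 2 ^ n := by
    intro n hn
    induction n, hn using Nat.le_induction with
    | base => norm_num
    | succ n hn ih =>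
        rw [pow_succ]
        omega
  have hbig := h2n n hn
  set r : ℝ := (1 / 2 : ℝ) ^ n with hr
  have hrpos : 0 < r := by positivity
  have hr2 : r * 2 ^ n = 1 := by
    rw [hr, ← mul_pow]
    norm_num
  have hbigR : 16 * (n : ℝ) ≤ 2 ^ n := by exact_mod_cast hbig
  have hnR : (7 : ℝ) ≤ n := by exact_mod_cast hn
  have hnr : (n : ℝ) * r ≤ 1 / 16 := by
    nlinarith [mul_le_mul_of_nonneg_left hbigR hrpos.le]
  have hr7 : r ≤ 1 / 112 := by nlinarith
  set W : ℕ := ∑ j ∈ Finset.range n, N j with hW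
  have hup : (W : ℝ) ≤ 2 ^ n * H := by
    rw [hW, hH, Finset.mul_sum]
    push_cast
    apply Finset.sum_le_sum
    intro j _
    have h1 := (hc j).1
    have h2 : ((n : ℝ) + j) * N j ≤ 2 ^ n * n := by exact_mod_cast h1
    have h3 : (0 : ℝ) < (n : ℝ) + j := by positivity
    rw [← mul_div_assoc, le_div_iff₀ h3]
    linarith
  have hlow : 2 ^ n * H ≤ (W : ℝ) + n := by
    have h0 : (W : ℝ) + n = ∑ j ∈ Finset.range n, ((N j : ℝ) + 1) := by
      rw [Finset.sum_add_distrib, hW]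
      push_cast
      simp
    rw [h0, hH, Finset.mul_sum]
    apply Finset.sum_le_sum
    intro j _
    have h1 := (hc j).2
    have h2 : 2 ^ n * (n : ℝ) ≤ ((n : ℝ) + j) * ((N j : ℝ) + 1) := by exact_mod_cast h1
    have h3 : (0 : ℝ) < (n : ℝ) + j := by positivity
    rw [← mul_div_assoc, div_le_iff₀ h3]
    linarith
  have hrW1 : r * W ≤ H := by
    have := mul_le_mul_of_nonneg_left hup hrpos.le
    rw [← mul_assoc, hr2, one_mul] at this
    exact this
  have hrW2 : H ≤ r * W + n * r := by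
    have := mul_le_mul_of_nonneg_left hlow hrpos.le
    rw [← mul_assoc, hr2, one_mul] at this
    linarith
  have h1r : 0 < 1 - r := by linarith
  have hexp : (2 : ℝ) ^ n * (1 - r) ^ W =
      Real.exp ((n : ℝ) * Real.log 2 + (W : ℝ) * Real.log (1 - r)) := by
    rw [Real.exp_add, Real.exp_nat_mul, Real.exp_nat_mul, Real.exp_log (by norm_num),
      Real.exp_log h1r]
  have hlog1 : Real.log (1 - r) ≤ -r := by
    have := Real.log_le_sub_one_of_pos h1r
    linarith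
  have hlog2 : -(r / (1 - r)) ≤ Real.log (1 - r) := by
    have h1 := Real.one_sub_inv_le_log_of_pos h1r
    refine le_trans (le_of_eq ?_) h1
    field_simp
    ring
  have hW0 : (0 : ℝ) ≤ W := Nat.cast_nonneg _
  have hlt2 := Real.log_two_gt_d9
  have hlt3 := Real.log_two_lt_d9
  rw [hexp]
  constructor
  · have h12 : (1 / 2 : ℝ) = Real.exp (-Real.log 2) := by
      rw [Real.exp_neg, Real.exp_log (by norm_num)]
      norm_num
    rw [h12]
    apply Real.exp_le_exp.mpr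
    have h3 : (W : ℝ) * (r / (1 - r)) ≤ ((n : ℝ) + 1) * Real.log 2 := by
      rw [← mul_div_assoc, div_le_iff₀ h1r]
      have h5 : (W : ℝ) * r ≤ (n : ℝ) * Real.log 2 + 1 / 2 := by linarith
      have h6 : ((n : ℝ) + 1) * r ≤ 1 / 8 := by nlinarith
      have h7 : ((n : ℝ) + 1) * r * Real.log 2 ≤ 1 / 8 * Real.log 2 :=
        mul_le_mul_of_nonneg_right h6 (by linarith)
      nlinarith
    have h4 := mul_le_mul_of_nonneg_left hlog2 hW0
    linarith
  · rw [Real.exp_le_one_iff]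
    have h4 := mul_le_mul_of_nonneg_left hlog1 hW0
    linarith

theorem st_GD0 (h1 : ST_CNT) (h2 : ST_CRD) (h3 : ST_HRM) : ST_GD0 := by
  intro n hn
  rw [h2 n]
  have hc := fun j => h1 (n + j) n n (by omega)
  rcases lt_or_ge n 7 with hlt | hge
  · exact gd0_small (fun j => ((Qf n).filter (fun x => bold (n + j) n x = true)).card) n hn hlt hc
  · exact gd0_large (fun j => ((Qf n).filter (fun x => bold (n + j) n x = true)).card) n hge hc _
      rfl (h3 n hn).1 (h3 n hn).2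

end Pool.Agent.Helper62.CS
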