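import Pool.Agent.Helper62.CS.Stmts

/-!
Row GDT of project CS (MP_2bf3f9_lc).
-/

namespace Pool.Agent.Helper62.CS

theorem mem_Qf59 {n : ℕ} {q : Str} : q ∈ Qf n ↔ q.length = n := by
  unfold Qf
  simp only [Finset.mem_image, Finset.mem_univ, true_and]
  constructor
  · rintro ⟨f, rfl⟩
    simp
  · intro h
    subst h
    exact ⟨fun i => q.get i, List.ofFn_get q⟩

theorem card_Qf59 (n : ℕ) : (Qf n).card = 2 ^ n := by
  unfold Qf
  rw [Finset.card_image_of_injective _ List.ofFn_injective]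
  simp

theorem st_GDT : ST_GDT := by
  classical
  have hex : ∀ n : ℕ, 1 ≤ n → ∃ S : Finset Str, S ⊆ Qf (2 * n) ∧
      1 / 2 ≤ (2 : ℝ) ^ n * (1 - (1 / 2 : ℝ) ^ n) ^ S.card ∧
      (2 : ℝ) ^ n * (1 - (1 / 2 : ℝ) ^ n) ^ S.card ≤ 1 := by
    intro n hn
    have hx0 : (0 : ℝ) < (1 / 2 : ℝ) ^ n := by positivity
    have hx1 : (1 / 2 : ℝ) ^ n ≤ 1 / 2 := by
      calc (1 / 2 : ℝ) ^ n ≤ (1 / 2 : ℝ) ^ 1 :=
            pow_le_pow_of_le_one (by norm_num) (by norm_num) hn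
        _ = 1 / 2 := by norm_num
    have h2n : (2 : ℝ) ^ n * (1 / 2 : ℝ) ^ n = 1 := by
      rw [← mul_pow]
      norm_num
    have h2pos : (0 : ℝ) < (2 : ℝ) ^ n := by positivity
    have hbig : (2 : ℝ) ^ n * (1 - (1 / 2 : ℝ) ^ n) ^ (4 ^ n) ≤ 1 := by
      have h1 : (1 - (1 / 2 : ℝ) ^ n) ≤ Real.exp (-(1 / 2 : ℝ) ^ n) := by
        have := Real.add_one_le_exp (-(1 / 2 : ℝ) ^ n)
        linarith
      have h2 : (1 - (1 / 2 : ℝ) ^ n) ^ (4 ^ n) ≤ Real.exp (-(2 : ℝ) ^ n) := by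
        calc (1 - (1 / 2 : ℝ) ^ n) ^ (4 ^ n) ≤ (Real.exp (-(1 / 2 : ℝ) ^ n)) ^ (4 ^ n) :=
              pow_le_pow_left₀ (by linarith) h1 _
          _ = Real.exp (-(2 : ℝ) ^ n) := by
              rw [← Real.exp_nat_mul]
              congr 1
              push_cast
              have h3 : (4 : ℝ) ^ n = 2 ^ n * 2 ^ n := by
                rw [← mul_pow]
                norm_num
              rw [h3]
              have h4 : (2 : ℝ) ^ n * 2 ^ n * -(1 / 2 : ℝ) ^ n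
                  = -(2 ^ n * ((2 : ℝ) ^ n * (1 / 2 : ℝ) ^ n)) := by ring
              rw [h4, h2n, mul_one]
      have h3 : (2 : ℝ) ^ n ≤ Real.exp ((2 : ℝ) ^ n) := by
        have := Real.add_one_le_exp ((2 : ℝ) ^ n)
        linarith
      calc (2 : ℝ) ^ n * (1 - (1 / 2 : ℝ) ^ n) ^ (4 ^ n)
          ≤ Real.exp ((2 : ℝ) ^ n) * Real.exp (-(2 : ℝ) ^ n) :=
            mul_le_mul h3 h2 (pow_nonneg (by linarith) _) (Real.exp_pos _).le
        _ = 1 := by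
            rw [← Real.exp_add]
            simp
    have hE : ∃ W : ℕ, (2 : ℝ) ^ n * (1 - (1 / 2 : ℝ) ^ n) ^ W ≤ 1 := ⟨_, hbig⟩
    have hW := Nat.find_spec hE
    have hWle : Nat.find hE ≤ 4 ^ n := Nat.find_min' hE hbig
    have hW0 : Nat.find hE ≠ 0 := by
      intro h0
      rw [h0, pow_zero, mul_one] at hW
      have : (2 : ℝ) ≤ 2 ^ n := by
        calc (2 : ℝ) = 2 ^ 1 := by norm_num
          _ ≤ 2 ^ n := pow_le_pow_right₀ (by norm_num) hn
      linarith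
    obtain ⟨W, hWe⟩ : ∃ W, Nat.find hE = W + 1 := Nat.exists_eq_succ_of_ne_zero hW0
    have hmin : ¬ (2 : ℝ) ^ n * (1 - (1 / 2 : ℝ) ^ n) ^ W ≤ 1 :=
      Nat.find_min hE (by omega)
    have hcard : Nat.find hE ≤ (Qf (2 * n)).card := by
      rw [card_Qf59, pow_mul, show (2 : ℕ) ^ 2 = 4 from rfl]
      exact hWle
    obtain ⟨S, hS1, hS2⟩ := Finset.exists_subset_card_eq hcard
    refine ⟨S, hS1, ?_, ?_⟩
    · rw [hS2, hWe, pow_succ]
      push Not at hmin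
      have h5 : (1 / 2 : ℝ) ≤ 1 - (1 / 2 : ℝ) ^ n := by linarith
      calc (1 / 2 : ℝ) = 1 * (1 / 2) := by norm_num
        _ ≤ ((2 : ℝ) ^ n * (1 - (1 / 2 : ℝ) ^ n) ^ W) * (1 - (1 / 2 : ℝ) ^ n) :=
            mul_le_mul hmin.le h5 (by norm_num) (by linarith)
        _ = _ := by ring
    · rw [hS2]
      exact hW
  choose! S hS1 hS2 hS3 using hex
  refine ⟨{w | ∃ n : ℕ, 1 ≤ n ∧ w.reverse ∈ S n}, ?_⟩
  intro n hn
  have hV : Vf {w | ∃ n : ℕ, 1 ≤ n ∧ w.reverse ∈ S n} n = S n := by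
    ext v
    unfold Vf
    simp only [Finset.mem_filter, Set.mem_ofPred_eq, List.reverse_reverse]
    constructor
    · rintro ⟨h1, m, hm, h2⟩
      have h3 := mem_Qf59.1 (hS1 m hm h2)
      have h4 := mem_Qf59.1 h1
      have h5 : m = n := by omega
      subst h5
      exact h2
    · intro h
      exact ⟨hS1 n hn h, n, hn, h⟩
  rw [hV]
  exact ⟨hS2 n hn, hS3 n hn⟩

end Pool.Agent.Helper62.CS
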