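import Pool.Agent.Helper59.CS.GDT

/-!
Row SPA of project CS (MP_2bf3f9_lc): almost surely `Aset T R` is co-sparse.
-/

namespace Pool.Agent.Helper62.CS

open Classical MeasureTheory

instance coin_prob59 : IsProbabilityMeasure coin := by
  unfold coin
  infer_instance

instance randomOracle_prob59 : IsProbabilityMeasure randomOracle := by
  unfold randomOracle
  infer_instance

/-- events depending on finitely many coordinates are measurable -/
theorem dep_meas59 (S : Finset Str) (Φ : (Str → Bool) → Prop) (h : Dep (S : Set Str) Φ) :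
    MeasurableSet {R | Φ R} := by
  have h1 : {R | Φ R} = (fun R : Str → Bool => fun x : S => R x) ⁻¹'
      {b : S → Bool | Φ (ovr S (fun _ => false) b)} := by
    ext R
    simp only [Set.mem_ofPred_eq, Set.mem_preimage]
    apply h
    intro x hx
    have hx' : x ∈ S := hx
    unfold ovr
    rw [dif_pos hx']
  rw [h1]
  apply MeasurableSet.preimage
  · exact (Set.toFinite _).measurableSet
  · exact measurable_pi_iff.2 (fun x => measurable_pi_apply _)

/-- whether `q` is in `Aset T R` depends only on the coordinates of its level -/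
theorem aset_dep59 (T : Lang) (n : ℕ) (q : Str) (hq : q.length = n) :
    Dep (blk T n : Set Str) (fun R => q ∉ Aset T R) := by
  have key : ∀ R R' : Str → Bool, (∀ x ∈ (blk T n : Set Str), R x = R' x) →
      q ∈ Aset T R → q ∈ Aset T R' := by
    rintro R R' h ⟨v, hv1, hv2, hv3⟩
    refine ⟨v, hv1, hv2, ?_⟩
    intro t ht
    rw [← h (code q v t) ?_]
    · exact hv3 t ht
    · have : code q v t ∈ blk T n := by
        unfold blk
        apply Finset.mem_image.2
        refine ⟨((q, v), t), ?_, rfl⟩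
        simp only [Finset.mem_product, Finset.mem_range]
        refine ⟨⟨mem_Qf59.2 hq, ?_⟩, by omega⟩
        unfold Vf
        simp only [Finset.mem_filter]
        exact ⟨mem_Qf59.2 (by omega), hv2⟩
      exact this
  intro R R' h
  have h' : ∀ x ∈ (blk T n : Set Str), R' x = R x := fun x hx => (h x hx).symm
  exact not_congr ⟨key R R' h, key R' R h'⟩

/-- the probability that row `q` is empty -/
theorem prob_empty59 (hEMR : ST_EMR) (hCYL : ST_CYL) (T : Lang) (n : ℕ) (hn : 1 ≤ n)
    (q : Str) (hq : q ∈ Qf n) :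
    randomOracle {R | q ∉ Aset T R} ≤
      ENNReal.ofReal ((1 - (1 / 2 : ℝ) ^ n) ^ (Vf T n).card) := by
  have hdep := aset_dep59 T n q (mem_Qf59.1 hq)
  have h := hCYL (blk T n) (blk T n) (fun _ => True) (fun R => q ∉ Aset T R)
    ((1 - (1 / 2 : ℝ) ^ n) ^ (Vf T n).card)
    (by
      apply pow_nonneg
      have : (1 / 2 : ℝ) ^ n ≤ 1 := pow_le_one₀ (by norm_num) (by norm_num)
      linarith)
    (fun _ _ _ => Iff.rfl) hdep (fun _ _ _ => Iff.rfl)
    (fun R => le_trans (le_of_eq (congrArg (Nat.cast (R := ℝ)) (congrArg Finset.card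
      (Finset.ext (fun b => by simp only [Finset.mem_filter]))))) (hEMR T n hn q hq R))
  simpa using h

/-- number of words of length `n` outside `A` -/
noncomputable def cnt59 (T : Lang) (n : ℕ) (R : Str → Bool) : ℕ :=
  ((Qf n).filter (fun q => q ∉ Aset T R)).card

theorem lint_cnt59 (hEMR : ST_EMR) (hCYL : ST_CYL) (T : Lang) (hT : GoodT T) (n : ℕ)
    (hn : 1 ≤ n) :
    ∫⁻ R, (cnt59 T n R : ENNReal) ∂randomOracle ≤ 1 := by
  have h1 : ∀ R, (cnt59 T n R : ENNReal) =
      ∑ q ∈ Qf n, Set.indicator {R | q ∉ Aset T R} (fun _ => (1 : ENNReal)) R := by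
    intro R
    unfold cnt59
    rw [Finset.card_filter]
    push_cast
    apply Finset.sum_congr rfl
    intro q _
    by_cases hq : q ∉ Aset T R
    · rw [if_pos hq, Set.indicator_of_mem (by exact hq)]
    · rw [if_neg hq, Set.indicator_of_notMem (by exact hq)]
  simp_rw [h1]
  have hms : ∀ q ∈ Qf n, MeasurableSet {R : Str → Bool | q ∉ Aset T R} := fun q hq =>
    dep_meas59 (blk T n) _ (aset_dep59 T n q (mem_Qf59.1 hq))
  rw [lintegral_finsetSum' _ (fun q hq =>
    (measurable_const.indicator (hms q hq)).aemeasurable)]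
  have h2 : ∀ q ∈ Qf n, ∫⁻ R, Set.indicator {R | q ∉ Aset T R} (fun _ => (1 : ENNReal)) R
      ∂randomOracle ≤ ENNReal.ofReal ((1 - (1 / 2 : ℝ) ^ n) ^ (Vf T n).card) := by
    intro q hq
    rw [lintegral_indicator (hms q hq)]
    simp only [lintegral_const, one_mul]
    rw [Measure.restrict_apply_univ]
    exact prob_empty59 hEMR hCYL T n hn q hq
  refine (Finset.sum_le_sum h2).trans ?_
  rw [Finset.sum_const, card_Qf59, nsmul_eq_mul]
  have h3 := (hT n hn).2
  have h4 : ((2 ^ n : ℕ) : ENNReal) = ENNReal.ofReal ((2 : ℝ) ^ n) := by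
    rw [ENNReal.ofReal_pow (by norm_num)]
    norm_num
  rw [h4, ← ENNReal.ofReal_mul (by positivity)]
  exact (ENNReal.ofReal_le_ofReal h3).trans (by simp)

theorem cnt_meas59 (T : Lang) (n : ℕ) : Measurable (fun R => (cnt59 T n R : ENNReal)) := by
  have h1 : (fun R => (cnt59 T n R : ENNReal)) = fun R =>
      ∑ q ∈ Qf n, Set.indicator {R | q ∉ Aset T R} (fun _ => (1 : ENNReal)) R := by
    funext R
    unfold cnt59
    rw [Finset.card_filter]
    push_cast
    apply Finset.sum_congr rfl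
    intro q _
    by_cases hq : q ∉ Aset T R
    · rw [if_pos hq, Set.indicator_of_mem (by exact hq)]
    · rw [if_neg hq, Set.indicator_of_notMem (by exact hq)]
  rw [h1]
  apply Finset.measurable_sum
  intro q hq
  exact measurable_const.indicator
    (dep_meas59 (blk T n) _ (aset_dep59 T n q (mem_Qf59.1 hq)))

theorem markov59 (hEMR : ST_EMR) (hCYL : ST_CYL) (T : Lang) (hT : GoodT T) (n : ℕ)
    (hn : 1 ≤ n) :
    randomOracle {R | n ^ 2 ≤ cnt59 T n R} ≤ ENNReal.ofReal (1 / (n : ℝ) ^ 2) := by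
  have h1 := mul_meas_ge_le_lintegral (μ := randomOracle) (cnt_meas59 T n) ((n ^ 2 : ℕ) : ENNReal)
  have h2 := h1.trans (lint_cnt59 hEMR hCYL T hT n hn)
  have h3 : {R | ((n ^ 2 : ℕ) : ENNReal) ≤ (cnt59 T n R : ENNReal)}
      = {R | n ^ 2 ≤ cnt59 T n R} := by
    ext R
    simp only [Set.mem_ofPred_eq]
    exact Nat.cast_le
  rw [h3] at h2
  have h4 : ((n ^ 2 : ℕ) : ENNReal) = ENNReal.ofReal ((n : ℝ) ^ 2) := by
    rw [ENNReal.ofReal_pow (by positivity)]
    simp
  have hpos : (0 : ℝ) < (n : ℝ) ^ 2 := by positivity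
  rw [one_div, ENNReal.ofReal_inv_of_pos hpos, ← h4]
  rw [← one_div]
  rw [ENNReal.le_div_iff_mul_le (Or.inl (by positivity)) (Or.inl (ENNReal.natCast_ne_top _)),
    mul_comm]
  exact h2

/-- the deterministic part -/
theorem cosparse_of59 (T : Lang) (R : Str → Bool) (N : ℕ)
    (h : ∀ n, N ≤ n → cnt59 T n R ≤ n ^ 2) : CoSparse (Aset T R) := by
  unfold CoSparse Sparse
  refine ⟨2 ^ N + 4, ?_⟩
  intro n
  have hsub : {x ∈ (Aset T R)ᶜ | x.length ≤ n} ⊆
      (((Finset.range (n + 1)).biUnion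
        (fun k => (Qf k).filter (fun q => q ∉ Aset T R)) : Finset Str) : Set Str) := by
    rintro x ⟨hx1, hx2⟩
    simp only [Finset.coe_biUnion, Finset.coe_range, Set.mem_Iio, Finset.coe_filter,
      Set.mem_iUnion, Set.mem_ofPred_eq, exists_prop]
    exact ⟨x.length, by omega, mem_Qf59.2 rfl, hx1⟩
  refine ⟨(Finset.finite_toSet _).subset hsub, ?_⟩
  have h1 := Set.ncard_le_ncard hsub (Finset.finite_toSet _)
  rw [Set.ncard_coe_finset] at h1
  refine h1.trans ?_
  refine Finset.card_biUnion_le.trans ?_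
  have h2 : ∀ k ∈ Finset.range (n + 1), ((Qf k).filter (fun q => q ∉ Aset T R)).card
      ≤ (if k < N then 2 ^ k else 0) + n ^ 2 := by
    intro k hk
    have hk' : k ≤ n := by
      have := Finset.mem_range.1 hk
      omega
    by_cases hkN : k < N
    · rw [if_pos hkN]
      have h3 : ((Qf k).filter (fun q => q ∉ Aset T R)).card ≤ (Qf k).card :=
        Finset.card_filter_le _ _
      rw [card_Qf59] at h3
      omega
    · rw [if_neg hkN]
      have h3 := h k (by omega)
      unfold cnt59 at h3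
      have h4 : k ^ 2 ≤ n ^ 2 := Nat.pow_le_pow_left hk' 2
      omega
  refine (Finset.sum_le_sum h2).trans ?_
  rw [Finset.sum_add_distrib, Finset.sum_const, Finset.card_range, smul_eq_mul]
  have h5 : ∑ k ∈ Finset.range (n + 1), (if k < N then 2 ^ k else 0) ≤ 2 ^ N := by
    rw [← Finset.sum_filter]
    calc ∑ k ∈ (Finset.range (n + 1)).filter (fun k => k < N), 2 ^ k
        ≤ ∑ k ∈ Finset.range N, 2 ^ k := by
          apply Finset.sum_le_sum_of_subset
          intro k hk
          simp only [Finset.mem_filter, Finset.mem_range] at hk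
          exact Finset.mem_range.2 hk.2
      _ ≤ 2 ^ N := (Nat.geomSum_lt (le_refl 2) (fun k hk => Finset.mem_range.1 hk)).le
  have h6 : (n + 1) * n ^ 2 ≤ n ^ (2 ^ N + 4) + 4 := by
    rcases Nat.lt_or_ge n 2 with hn | hn
    · interval_cases n
      · simp
      · simp
    · calc (n + 1) * n ^ 2 ≤ n ^ 2 * n ^ 2 := by
            apply Nat.mul_le_mul_right
            nlinarith
        _ = n ^ 4 := by ring
        _ ≤ n ^ (2 ^ N + 4) := Nat.pow_le_pow_right (by omega) (by omega)
        _ ≤ _ := by omega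
  omega

theorem st_SPA : ST_EMR → ST_CYL → ST_SPA := by
  intro hEMR hCYL T hT
  have hsum : ∑' n : ℕ, randomOracle {R | (n + 1) ^ 2 ≤ cnt59 T (n + 1) R} ≠ ⊤ := by
    have h1 : ∀ n : ℕ, randomOracle {R | (n + 1) ^ 2 ≤ cnt59 T (n + 1) R}
        ≤ ENNReal.ofReal (1 / ((n + 1 : ℕ) : ℝ) ^ 2) :=
      fun n => markov59 hEMR hCYL T hT (n + 1) (by omega)
    refine ne_top_of_le_ne_top ?_ (ENNReal.tsum_le_tsum h1)
    have h2 : Summable (fun n : ℕ => 1 / ((n + 1 : ℕ) : ℝ) ^ 2) :=
      (summable_nat_add_iff (f := fun n : ℕ => 1 / (n : ℝ) ^ 2) 1).2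
        (Real.summable_one_div_nat_pow.2 (by norm_num))
    exact h2.tsum_ofReal_ne_top
  have h := ae_eventually_notMem hsum
  filter_upwards [h] with R hR
  obtain ⟨N, hN⟩ := Filter.eventually_atTop.1 hR
  apply cosparse_of59 T R (N + 1)
  intro n hn
  obtain ⟨m, rfl⟩ : ∃ m, n = m + 1 := ⟨n - 1, by omega⟩
  have h3 := hN m (by omega)
  have h4 : ¬ (m + 1) ^ 2 ≤ cnt59 T (m + 1) R := h3
  exact (not_le.1 h4).le

end Pool.Agent.Helper62.CS
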